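import Pool.Agent.Helper35.HC.StA

/-!
Project HC (MP_925021_gt), module PXR (helper32): the reaction term at a maximal orthonormal pair.
-/

set_option autoImplicit false

namespace Helper32.HC

open Helper35.HC Helper35.HSF Helper35.MS Helper35.PI Helper35.PI2 Helper32.CL
open Finset

variable {n : ℕ}

/-- scalar product -/
def dt (u v : Fin n → ℝ) : ℝ := ∑ i, u i * v i

/-- matrix times vector -/
def mv (X : Fin n → Fin n → ℝ) (v : Fin n → ℝ) (i : Fin n) : ℝ := ∑ j, X i j * v j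

theorem dt_comm (u v : Fin n → ℝ) : dt u v = dt v u := by
  unfold dt
  exact sum_congr rfl fun i _ => mul_comm _ _

theorem dt_l (a b : ℝ) (c d e : Fin n → ℝ) :
    dt (fun i => a * c i + b * d i) e = a * dt c e + b * dt d e := by
  unfold dt
  rw [mul_sum, mul_sum, ← sum_add_distrib]
  exact sum_congr rfl fun i _ => by ring

theorem dt_r (a b : ℝ) (c d e : Fin n → ℝ) :
    dt e (fun i => a * c i + b * d i) = a * dt e c + b * dt e d := by
  rw [dt_comm, dt_l, dt_comm c e, dt_comm d e]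

theorem dt_nn (u : Fin n → ℝ) : 0 ≤ dt u u := sum_nonneg fun _ _ => mul_self_nonneg _

theorem dt_sq (u : Fin n → ℝ) : dt u u = ∑ i, u i ^ 2 := by
  unfold dt
  exact sum_congr rfl fun i _ => by ring

theorem bil_mv (X : Fin n → Fin n → ℝ) (c d : Fin n → ℝ) : bil X c d = dt c (mv X d) := by
  unfold bil dt mv
  refine sum_congr rfl fun i _ => ?_
  rw [mul_sum]
  exact sum_congr rfl fun j _ => by ring

theorem bil_symm {X : Fin n → Fin n → ℝ} (hX : SymS X) (c d : Fin n → ℝ) :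
    bil X d c = bil X c d := by
  unfold bil
  rw [sum_comm]
  refine sum_congr rfl fun i _ => sum_congr rfl fun j _ => ?_
  rw [hX j i]
  ring

theorem bil_l (X : Fin n → Fin n → ℝ) (a b : ℝ) (c d e : Fin n → ℝ) :
    bil X (fun i => a * c i + b * d i) e = a * bil X c e + b * bil X d e := by
  rw [bil_mv, bil_mv, bil_mv, dt_l]

theorem mv_lin (X : Fin n → Fin n → ℝ) (a b : ℝ) (c d : Fin n → ℝ) (i : Fin n) :
    mv X (fun i => a * c i + b * d i) i = a * mv X c i + b * mv X d i := by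
  unfold mv
  rw [mul_sum, mul_sum, ← sum_add_distrib]
  exact sum_congr rfl fun j _ => by ring

theorem bil_r (X : Fin n → Fin n → ℝ) (a b : ℝ) (c d e : Fin n → ℝ) :
    bil X e (fun i => a * c i + b * d i) = a * bil X e c + b * bil X e d := by
  rw [bil_mv, bil_mv, bil_mv, funext (mv_lin X a b c d), dt_r]

/-- the key estimate for one of the two vectors `P + Q`, `P - Q` -/
theorem tb {K b : Fin n → Fin n → ℝ} (hK : SymS K) (hb : SymS b) (μ lam sg : ℝ)
    (s : Fin n → ℝ) (hs : dt s s = 2) (hKs : ∀ i, mv K s i = lam * s i)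
    (hw : ∀ w, sg * (lam * dt w w - bil K w w) ≤ 2 * μ * dt w w)
    (hop : ∀ c d, dt c d = 0 → bil b c d ^ 2 ≤ μ ^ 2 * (dt c c * dt d d)) :
    sg * (lam * dt (mv b s) (mv b s) - bil K (mv b s) (mv b s)) ≤
      2 * μ * (dt (mv b s) (mv b s) - dt (mv b s) s ^ 2 / 2) ∧
    dt (mv b s) (mv b s) - dt (mv b s) s ^ 2 / 2 ≤ 2 * μ ^ 2 := by
  set S := mv b s with hS
  have hKs' : mv K s = fun i => lam * s i + 0 * s i := by
    funext i
    rw [hKs i]
    ring
  have h1 : bil K S s = lam * dt S s := by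
    rw [bil_mv, hKs', dt_r]
    ring
  have h2 : bil K s s = lam * 2 := by
    rw [bil_mv, hKs', dt_r, hs]
    ring
  have h3 : bil K s S = lam * dt S s := by rw [bil_symm hK, h1]
  have h4 : dt s S = dt S s := dt_comm _ _
  set w : Fin n → ℝ := fun i => 1 * S i + (-(dt S s / 2)) * s i with hwd
  have h5 : dt w w = dt S S - dt S s ^ 2 / 2 := by
    rw [hwd, dt_l, dt_r, dt_r, h4, hs]
    ring
  have h6 : bil K w w = bil K S S - lam * dt S s ^ 2 / 2 := by
    rw [hwd, bil_l, bil_r, bil_r, h1, h2, h3]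
    ring
  have h7 : dt s w = 0 := by
    rw [hwd, dt_r, h4, hs]
    ring
  have h8 : bil b s w = dt w w := by
    rw [← bil_symm hb, bil_mv, ← hS, h5, hwd, dt_l, h4]
    ring
  refine ⟨?_, ?_⟩
  · have := hw w
    rw [h5, h6] at this
    linarith [this]
  · rw [← h5]
    have h9 := hop s w h7
    rw [h8, hs] at h9
    have h10 := dt_nn w
    by_contra hc
    rw [not_le] at hc
    nlinarith [sq_nonneg μ]

/-- normalisation -/
theorem opg {K b : Fin n → Fin n → ℝ} {μ : ℝ}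
    (mx : ∀ c d, OP c d → bil K c d ^ 2 + bil b c d ^ 2 ≤ μ ^ 2) :
    ∀ c d, dt c d = 0 → bil b c d ^ 2 ≤ μ ^ 2 * (dt c c * dt d d) := by
  intro c d hcd
  have hz : ∀ v : Fin n → ℝ, dt v v = 0 → v = 0 := by
    intro v hv
    funext i
    have := (sum_eq_zero_iff_of_nonneg (fun i _ => mul_self_nonneg (v i))).1 hv i (mem_univ i)
    exact mul_self_eq_zero.1 this
  rcases eq_or_lt_of_le (dt_nn c) with hc | hc
  · rw [hz c hc.symm]
    have : bil b (0 : Fin n → ℝ) d = 0 := by simp [bil]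
    rw [this]
    have h0 : dt (0 : Fin n → ℝ) 0 = 0 := by simp [dt]
    rw [h0]
    simp
  rcases eq_or_lt_of_le (dt_nn d) with hd | hd
  · rw [hz d hd.symm]
    have : bil b c (0 : Fin n → ℝ) = 0 := by simp [bil]
    rw [this]
    have h0 : dt (0 : Fin n → ℝ) 0 = 0 := by simp [dt]
    rw [h0]
    simp
  set x := (Real.sqrt (dt c c))⁻¹ with hx
  set y := (Real.sqrt (dt d d))⁻¹ with hy
  have hx2 : x ^ 2 * dt c c = 1 := by
    rw [hx, inv_pow, Real.sq_sqrt hc.le, inv_mul_cancel₀ hc.ne']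
  have hy2 : y ^ 2 * dt d d = 1 := by
    rw [hy, inv_pow, Real.sq_sqrt hd.le, inv_mul_cancel₀ hd.ne']
  have hO : OP (fun i => x * c i + 0 * c i) (fun i => y * d i + 0 * d i) := by
    refine ⟨?_, ?_, ?_⟩
    · rw [← dt_sq, dt_l, dt_r]
      linear_combination hx2
    · rw [← dt_sq, dt_l, dt_r]
      linear_combination hy2
    · change dt (fun i => x * c i + 0 * c i) (fun i => y * d i + 0 * d i) = 0
      rw [dt_l, dt_r, hcd]
      ring
  have h1 := mx _ _ hO
  have h2 : bil b (fun i => x * c i + 0 * c i) (fun i => y * d i + 0 * d i) = x * y * bil b c d := by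
    rw [bil_l, bil_r]
    ring
  rw [h2] at h1
  have h3 : (x * y * bil b c d) ^ 2 ≤ μ ^ 2 := by nlinarith [sq_nonneg (bil K (fun i => x * c i + 0 * c i) (fun i => y * d i + 0 * d i))]
  have h4 : bil b c d ^ 2 = (x * y * bil b c d) ^ 2 * (dt c c * dt d d) := by
    linear_combination (-(bil b c d ^ 2 * y ^ 2 * dt d d)) * hx2 - bil b c d ^ 2 * hy2
  rw [h4]
  exact mul_le_mul_of_nonneg_right h3 (mul_nonneg hc.le hd.le)

theorem bessel {P Q : Fin n → ℝ} (h : OP P Q) (y : Fin n → ℝ) :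
    dt y P ^ 2 + dt y Q ^ 2 ≤ dt y y := by
  have hPP : dt P P = 1 := by rw [dt_sq]; exact h.1
  have hQQ : dt Q Q = 1 := by rw [dt_sq]; exact h.2.1
  have hPQ : dt P Q = 0 := h.2.2
  have hQP : dt Q P = 0 := by rw [dt_comm]; exact hPQ
  set z : Fin n → ℝ := fun i => dt y P * P i + dt y Q * Q i with hz
  have h2 : dt y z = dt y P ^ 2 + dt y Q ^ 2 := by
    rw [hz, dt_r]
    ring
  have h3 : dt z z = dt y P ^ 2 + dt y Q ^ 2 := by
    rw [hz, dt_l, dt_r, dt_r, hPP, hQQ, hPQ, hQP]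
    ring
  clear_value z
  have h1 := dt_nn (fun i => 1 * y i + (-1) * z i)
  rw [dt_l, dt_r, dt_r, dt_comm z y, h2, h3] at h1
  linarith

theorem mv_tl (X : Fin n → Fin n → ℝ) (s : Fin n → ℝ) (i : Fin n) :
    mv (tl X) s i = mv X s i - mt X * s i := by
  unfold mv tl
  have : ∀ j, (X i j - if i = j then mt X else 0) * s j = X i j * s j - if i = j then mt X * s j else 0 := by
    intro j
    split_ifs <;> ring
  simp only [this]
  rw [sum_sub_distrib, sum_ite_eq]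
  simp

theorem mv_lc (a b : ℝ) (X Y : Fin n → Fin n → ℝ) (s : Fin n → ℝ) (i : Fin n) :
    mv (lc a b X Y) s i = a * mv X s i + b * mv Y s i := by
  unfold mv lc
  rw [mul_sum, mul_sum, ← sum_add_distrib]
  exact sum_congr rfl fun j _ => by ring

theorem sum_row (Y : Fin n → Fin n → ℝ) {P Q : Fin n → ℝ} (h : OP P Q) :
    dt (mv Y P) (mv Y P) + dt (mv Y Q) (mv Y Q) ≤ ∑ i, ∑ j, Y i j ^ 2 := by
  rw [dt_sq, dt_sq, ← sum_add_distrib]
  refine sum_le_sum fun i _ => ?_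
  have := bessel h (Y i)
  rw [dt_sq] at this
  exact this

theorem par (Z : Fin n → Fin n → ℝ) (P Q : Fin n → ℝ) :
    dt (mv Z (fun i => 1 * P i + 1 * Q i)) (mv Z (fun i => 1 * P i + 1 * Q i)) +
      dt (mv Z (fun i => 1 * P i + (-1) * Q i)) (mv Z (fun i => 1 * P i + (-1) * Q i)) =
    2 * (dt (mv Z P) (mv Z P) + dt (mv Z Q) (mv Z Q)) := by
  rw [funext (mv_lin Z 1 1 P Q), funext (mv_lin Z 1 (-1) P Q)]
  generalize mv Z P = x
  generalize mv Z Q = y
  rw [dt_l, dt_r, dt_r, dt_l, dt_r, dt_r]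
  ring

theorem sum_lc (a b : ℝ) (X Y : Fin n → Fin n → ℝ) :
    ∑ i, ∑ j, lc a b (tl X) (tl Y) i j ^ 2 =
      a ^ 2 * ip0 X X + 2 * a * b * ip0 X Y + b ^ 2 * ip0 Y Y := by
  unfold ip0 lc
  rw [mul_sum, mul_sum, mul_sum, ← sum_add_distrib, ← sum_add_distrib]
  refine sum_congr rfl fun i _ => ?_
  rw [mul_sum, mul_sum, mul_sum, ← sum_add_distrib, ← sum_add_distrib]
  exact sum_congr rfl fun j _ => by ring

/-- a multiple of `s` does not change the part of `b s` orthogonal to `s` -/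
theorem proj_le (S s : Fin n → ℝ) (hs : dt s s = 2) (c : ℝ) (Z : Fin n → ℝ)
    (hZ : ∀ i, Z i = S i - c * s i) :
    dt S S - dt S s ^ 2 / 2 ≤ dt Z Z := by
  have hZ' : Z = fun i => 1 * S i + (-c) * s i := by
    funext i
    rw [hZ i]
    ring
  rw [hZ', dt_l, dt_r, dt_r, dt_comm s S, hs]
  nlinarith [sq_nonneg (2 * c - dt S s)]

section vec

variable {N : ℕ} {A : Fin n → Fin n → EE N} {K b : Fin n → Fin n → ℝ} {r : ℝ} {ξ η x₀ : EE N}

theorem inn (h : KB A K b r ξ η x₀) (a a' a'' c c' c'' : ℝ) :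
    (inner ℝ (a • ξ + a' • η - (r * a'') • x₀) (c • ξ + c' • η - (r * c'') • x₀) : ℝ) =
      a * c + a' * c' + r * (a'' * c'') := by
  have h1 : (inner ℝ ξ ξ : ℝ) = 1 := by rw [real_inner_self_eq_norm_sq, h.nξ]; norm_num
  have h2 : (inner ℝ η η : ℝ) = 1 := by rw [real_inner_self_eq_norm_sq, h.nη]; norm_num
  have h3 : (inner ℝ x₀ x₀ : ℝ) = 1 / r := by rw [real_inner_self_eq_norm_sq, h.nx]
  have h4 : (inner ℝ η ξ : ℝ) = 0 := by rw [real_inner_comm, h.ξη]
  have h5 : (inner ℝ x₀ ξ : ℝ) = 0 := by rw [real_inner_comm, h.ξx]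
  have h6 : (inner ℝ x₀ η : ℝ) = 0 := by rw [real_inner_comm, h.ηx]
  simp only [inner_sub_left, inner_add_left, inner_sub_right, inner_add_right,
    real_inner_smul_left, real_inner_smul_right, h1, h2, h3, h4, h5, h6, h.ξη, h.ξx, h.ηx]
  have := h.r0.ne'
  field_simp
  ring

theorem A_ij (h : KB A K b r ξ η x₀) (i j : Fin n) :
    A i j = K i j • ξ + b i j • η - (r * if i = j then 1 else 0) • x₀ := by
  rw [h.eq]
  simp only
  congr 2
  split_ifs <;> ring

theorem Av_eq (h : KB A K b r ξ η x₀) (c : Fin n → ℝ) (k : Fin n) :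
    Av A c k = mv K c k • ξ + mv b c k • η - (r * c k) • x₀ := by
  unfold Av mv
  simp only [A_ij h, smul_sub, smul_add, smul_smul, sum_sub_distrib, sum_add_distrib,
    ← sum_smul]
  have h1 : ∑ j, c j * (r * if k = j then 1 else 0) = r * c k := by
    have : ∀ j, c j * (r * if k = j then 1 else 0) = if k = j then r * c j else 0 := by
      intro j
      split_ifs <;> ring
    simp only [this]
    rw [sum_ite_eq]
    simp
  have h2 : ∀ X : Fin n → Fin n → ℝ, ∑ j, c j * X k j = ∑ j, X k j * c j :=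
    fun X => sum_congr rfl fun j _ => mul_comm _ _
  rw [h1, h2 K, h2 b]

theorem bilV_eq (h : KB A K b r ξ η x₀) (c d : Fin n → ℝ) :
    bilV A c d = bil K c d • ξ + bil b c d • η - (r * dt c d) • x₀ := by
  have h1 : bilV A c d = ∑ i, c i • Av A d i := by
    unfold bilV Av
    refine sum_congr rfl fun i _ => ?_
    rw [smul_sum]
    exact sum_congr rfl fun j _ => by rw [smul_smul]
  rw [h1]
  simp only [Av_eq h, smul_sub, smul_add, smul_smul, sum_sub_distrib, sum_add_distrib,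
    ← sum_smul]
  rw [bil_mv, bil_mv]
  congr 2
  unfold dt
  rw [mul_sum]
  exact sum_congr rfl fun i _ => by ring

theorem Sbl_eq (h : KB A K b r ξ η x₀) (c d : Fin n → ℝ) :
    Sbl A c d = dt (mv K c) (mv K d) + dt (mv b c) (mv b d) + r * dt c d := by
  unfold Sbl
  simp only [Av_eq h, inn h]
  unfold dt
  rw [mul_sum, ← sum_add_distrib, ← sum_add_distrib]

end vec

theorem hPXR (hPXE : StPXE) (_hSPL : StSPL) : StPXR := by
  intro n N hn K b P Q μ hM A r ξ η x₀ hA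
  obtain ⟨k₀, hk⟩ : ∃ k₀, k₀ = bil K P P := ⟨_, rfl⟩
  obtain ⟨e1, e2, e3, e4, e5⟩ := hPXE n hn K b P Q μ hM k₀ hk
  have hμ := hM.mu0
  have hPP : dt P P = 1 := by rw [dt_sq]; exact hM.op.1
  have hQQ : dt Q Q = 1 := by rw [dt_sq]; exact hM.op.2.1
  have hPQ : dt P Q = 0 := hM.op.2.2
  have hQP : dt Q P = 0 := by rw [dt_comm]; exact hPQ
  have KP : mv K P = fun i => k₀ * P i + μ * Q i := funext e2
  have KQ : mv K Q = fun i => k₀ * Q i + μ * P i := funext e3
  have bV : bilV A P Q = μ • ξ + (0 : ℝ) • η - (r * 0) • x₀ := by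
    rw [bilV_eq hA, hM.KPQ, hM.bPQ, hPQ]
  have bV2 : ‖bilV A P Q‖ ^ 2 = μ ^ 2 := by
    rw [← real_inner_self_eq_norm_sq, bV, inn hA]
    ring
  refine ⟨bV2, ?_⟩
  set u := mv b P with hu
  set v := mv b Q with hv
  -- the reaction term
  have hR : ReaP A P Q = μ ^ 2 * (∑ i, ∑ j, K i j ^ 2) +
      μ * (2 * k₀ * dt u v + μ * (dt u u + dt v v) - 2 * bil K u v) := by
    have r1 : (∑ i, ∑ j, (inner ℝ (bilV A P Q) (A i j) : ℝ) ^ 2) = μ ^ 2 * (∑ i, ∑ j, K i j ^ 2) := by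
      rw [mul_sum]
      refine sum_congr rfl fun i _ => ?_
      rw [mul_sum]
      refine sum_congr rfl fun j _ => ?_
      rw [bV, A_ij hA, inn hA]
      ring
    have r2 : (∑ i, ∑ j, (inner ℝ (Av A P i) (Av A Q j) : ℝ) * inner ℝ (A i j) (bilV A P Q)) =
        μ * (bil K (mv K P) (mv K Q) + bil K u v + r * bil K P Q) := by
      unfold bil
      rw [mul_sum, ← sum_add_distrib, ← sum_add_distrib, mul_sum]
      refine sum_congr rfl fun i _ => ?_
      rw [mul_sum, ← sum_add_distrib, ← sum_add_distrib, mul_sum]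
      refine sum_congr rfl fun j _ => ?_
      rw [bV, A_ij hA, Av_eq hA, Av_eq hA, inn hA, inn hA]
      ring
    have r3 : bil K (mv K P) (mv K Q) = 3 * k₀ ^ 2 * μ + μ ^ 3 := by
      rw [KP, KQ, bil_l, bil_r, bil_r, hM.KPQ, e1, ← hk, bil_symm hM.sK P Q, hM.KPQ]
      ring
    have r4 : (inner ℝ (bilV A P Q) (bilV A P P) : ℝ) = μ * k₀ := by
      rw [bV, bilV_eq hA, inn hA, ← hk]
      ring
    have r5 : dt (mv K P) (mv K Q) = 2 * k₀ * μ := by
      rw [KP, KQ, dt_l, dt_r, dt_r, hPP, hQQ, hPQ, hQP]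
      ring
    have r6 : dt (mv K P) (mv K P) = k₀ ^ 2 + μ ^ 2 := by
      rw [KP, dt_l, dt_r, dt_r, hPP, hQQ, hPQ, hQP]
      ring
    have r7 : dt (mv K Q) (mv K Q) = k₀ ^ 2 + μ ^ 2 := by
      rw [KQ, dt_l, dt_r, dt_r, hPP, hQQ, hPQ, hQP]
      ring
    unfold ReaP
    rw [r1, r2, r3, r4, bV2, Sbl_eq hA, Sbl_eq hA, Sbl_eq hA, r5, r6, r7, hPP, hQQ, hPQ, hM.KPQ]
    ring
  -- the vectors `P + Q`, `P - Q`
  have dsp : dt (fun i => 1 * P i + 1 * Q i) (fun i => 1 * P i + 1 * Q i) = 2 := by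
    rw [dt_l, dt_r, dt_r, hPP, hQQ, hPQ, hQP]
    ring
  have dsm : dt (fun i => 1 * P i + (-1) * Q i) (fun i => 1 * P i + (-1) * Q i) = 2 := by
    rw [dt_l, dt_r, dt_r, hPP, hQQ, hPQ, hQP]
    ring
  have Kp : ∀ i, mv K (fun i => 1 * P i + 1 * Q i) i = (k₀ + μ) * (fun i => 1 * P i + 1 * Q i) i := by
    intro i
    rw [mv_lin, KP, KQ]
    ring
  have Km : ∀ i, mv K (fun i => 1 * P i + (-1) * Q i) i =
      (k₀ - μ) * (fun i => 1 * P i + (-1) * Q i) i := by
    intro i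
    rw [mv_lin, KP, KQ]
    ring
  have hw1 : ∀ w, 1 * ((k₀ + μ) * dt w w - bil K w w) ≤ 2 * μ * dt w w := by
    intro w
    have := (e4 w).1
    rw [← dt_sq] at this
    linarith
  have hw2 : ∀ w, (-1) * ((k₀ - μ) * dt w w - bil K w w) ≤ 2 * μ * dt w w := by
    intro w
    have := (e4 w).2
    rw [← dt_sq] at this
    linarith
  obtain ⟨p1, p2⟩ := tb hM.sK hM.sb μ (k₀ + μ) 1 _ dsp Kp hw1 (opg hM.mx)
  obtain ⟨q1, q2⟩ := tb hM.sK hM.sb μ (k₀ - μ) (-1) _ dsm Km hw2 (opg hM.mx)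
  have bp : mv b (fun i => 1 * P i + 1 * Q i) = fun i => 1 * u i + 1 * v i := funext (mv_lin b 1 1 P Q)
  have bm : mv b (fun i => 1 * P i + (-1) * Q i) = fun i => 1 * u i + (-1) * v i :=
    funext (mv_lin b 1 (-1) P Q)
  -- the matrix `Y`
  obtain ⟨t, ht⟩ : ∃ t, t = ip0 K b / ip0 K K := ⟨_, rfl⟩
  have hKK : 0 < ip0 K K := lt_of_lt_of_le (by positivity) e5
  have hY : (∑ i, ∑ j, lc 1 (-t) (tl b) (tl K) i j ^ 2) = ip0 b b - ip0 K b ^ 2 / ip0 K K := by
    have hc : ip0 b K = ip0 K b := by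
      unfold ip0
      exact sum_congr rfl fun i _ => sum_congr rfl fun j _ => mul_comm _ _
    rw [sum_lc, hc, ht]
    field_simp
    ring
  have hrow := sum_row (lc 1 (-t) (tl b) (tl K)) hM.op
  rw [hY] at hrow
  have Yp := proj_le (mv b (fun i => 1 * P i + 1 * Q i)) _ dsp (mt b + t * (k₀ + μ - mt K))
    (mv (lc 1 (-t) (tl b) (tl K)) (fun i => 1 * P i + 1 * Q i)) (by
      intro i
      rw [mv_lc, mv_tl, mv_tl, Kp i]
      ring)
  have Ym := proj_le (mv b (fun i => 1 * P i + (-1) * Q i)) _ dsm (mt b + t * (k₀ - μ - mt K))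
    (mv (lc 1 (-t) (tl b) (tl K)) (fun i => 1 * P i + (-1) * Q i)) (by
      intro i
      rw [mv_lc, mv_tl, mv_tl, Km i]
      ring)
  have Ypm := par (lc 1 (-t) (tl b) (tl K)) P Q
  have hT : 2 * k₀ * dt u v + μ * (dt u u + dt v v) - 2 * bil K u v =
      (1 * ((k₀ + μ) * dt (mv b fun i => 1 * P i + 1 * Q i) (mv b fun i => 1 * P i + 1 * Q i)
        - bil K (mv b fun i => 1 * P i + 1 * Q i) (mv b fun i => 1 * P i + 1 * Q i)) +
      (-1) * ((k₀ - μ) * dt (mv b fun i => 1 * P i + (-1) * Q i) (mv b fun i => 1 * P i + (-1) * Q i)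
        - bil K (mv b fun i => 1 * P i + (-1) * Q i) (mv b fun i => 1 * P i + (-1) * Q i))) / 2 := by
    rw [bp, bm, dt_l, dt_r, dt_r, dt_l, dt_r, dt_r, bil_l, bil_r, bil_r, bil_l, bil_r, bil_r,
      dt_comm v u, bil_symm hM.sK u v]
    ring
  set ρ₁ := dt (mv b fun i => 1 * P i + 1 * Q i) (mv b fun i => 1 * P i + 1 * Q i) -
    dt (mv b fun i => 1 * P i + 1 * Q i) (fun i => 1 * P i + 1 * Q i) ^ 2 / 2 with hρ₁
  set ρ₂ := dt (mv b fun i => 1 * P i + (-1) * Q i) (mv b fun i => 1 * P i + (-1) * Q i) -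
    dt (mv b fun i => 1 * P i + (-1) * Q i) (fun i => 1 * P i + (-1) * Q i) ^ 2 / 2 with hρ₂
  have hT2 : 2 * k₀ * dt u v + μ * (dt u u + dt v v) - 2 * bil K u v ≤ μ * (ρ₁ + ρ₂) := by
    rw [hT]
    linarith
  have hmin : ρ₁ + ρ₂ ≤ 2 * min (2 * μ ^ 2) (ip0 b b - ip0 K b ^ 2 / ip0 K K) := by
    rcases le_total (2 * μ ^ 2) (ip0 b b - ip0 K b ^ 2 / ip0 K K) with hm | hm
    · rw [min_eq_left hm]
      linarith
    · rw [min_eq_right hm]
      linarith
  rw [hR]
  have h9 := mul_le_mul_of_nonneg_left hT2 hμ.le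
  have h10 := mul_le_mul_of_nonneg_left hmin (sq_nonneg μ)
  nlinarith [h9, h10]

end Helper32.HC
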